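import Pool.Agent.Lib.MP_465ce1_mp.Main

/-!
The normalized heat trace is decreasing on the whole half line up to an explicit factor `C`
that depends only on the dimension, is at most `7/4`, and tends to `1` faster than
exponentially.
-/

open Pool.Agent.Lib.MP_465ce1_mp

namespace Pool.Agent.Results.MP_465ce1_mp.AlmostMonotone

theorem result (n : ℕ) (hn : 4 ≤ n) :
    ∃ C : ℝ, C = om (n / 2) (3 + √3) / om (n / 2) (3 - √3) ∧ 1 ≤ C ∧ C ≤ 7 / 4 ∧
      1 - 9 * (3 + √3) ^ (n / 2 - 2 : ℝ) / (Real.Gamma (n / 2 + 2) * (n / 2) * (n / 2 - 1)) ≤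
        1 / C ∧
      ∀ W : Sph n → ℝ, IsSmooth W → (∀ x, 0 < W x) →
        (∀ t : ℝ, 0 < t → Summable fun k => Real.exp (-(t * eig W k))) ∧
        ∀ t1 t2 : ℝ, 0 < t1 → t1 ≤ t2 → heat W t2 ≤ C * heat W t1 := by
  have hn' : (4 : ℝ) ≤ n := by exact_mod_cast hn
  obtain ⟨-, h2, h3, h4, h5, h6⟩ := om_holds (n / 2) (by linarith)
  have h7 := h3.trans_le h4
  refine ⟨_, rfl, (one_le_div h3).mpr h4, by rw [div_le_iff₀ h3]; linarith, ?_,
    fun W hW hpos => ⟨(eig_ctl hn hW hpos).summ, fun t1 t2 ht1 h12 => ?_⟩⟩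
  · rw [one_div_div, le_div_iff₀ h7]; exact h6
  · have C := eig_ctl hn hW hpos
    have := heat_le hn hW hpos (θ := om (n / 2) (3 - √3) / om (n / 2) (3 + √3)) ht1
      (ht1.trans_le h12) fun x hx => by
        have hx0 := C.c_pos.trans_le hx
        rw [div_mul_eq_mul_div, div_le_iff₀ h7, mul_comm (om _ (t1 * x))]
        exact h2 _ _ (mul_pos ht1 hx0) (mul_le_mul_of_nonneg_right h12 hx0.le)
    rw [div_mul_eq_mul_div, div_le_iff₀ h7] at this
    rw [div_mul_eq_mul_div, le_div_iff₀ h3]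
    linarith

end Pool.Agent.Results.MP_465ce1_mp.AlmostMonotone
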