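import Pool.Agent.Lib.MP_465ce1_mp.Cx.Bump




import Pool.Agent.Lib.MP_465ce1_mp.Cx.Hom




import Pool.Agent.Lib.MP_465ce1_mp.Cx.Piece

import Pool.Agent.Lib.MP_465ce1_mp.Cx.Match

import Pool.Agent.Lib.MP_465ce1_mp.Cx.Neg



import Pool.Agent.Lib.MP_465ce1_mp.Cx.Weyl

import Pool.Agent.Lib.MP_465ce1_mp.Cx.Sym



/-!
The normalized heat trace of the weighted conformal Laplacian on the four-sphere is not
decreasing for some smooth positive normalized weight.
-/

open MeasureTheory Pool.Agent.Lib.MP_465ce1_mp Pool.Agent.Lib.MP_465ce1_mp.Cx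

namespace Pool.Agent.Results.MP_465ce1_mp.Counterexample

theorem result : ∃ W : Sph 4 → ℝ, IsSmooth W ∧ (∀ x, 0 < W x) ∧
    ∫ x, W x ^ 2 ∂vol 4 = (vol 4).real Set.univ ∧
    (∀ t : ℝ, 0 < t → Summable fun k => Real.exp (-(t * eig W k))) ∧
    ∃ t1 t2 : ℝ, 0 < t1 ∧ t1 < t2 ∧ heat W t1 < heat W t2 := by
  have hres := res_holds homKit
  have hup := upper_holds
    (weyl_holds near_holds ims_holds part_holds antip_holds (piece_holds planch_holds))
    laplace_holds (lb_holds specFlat_holds frame_holds (func_holds planch_holds)) sphereOf_holds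
    homKit hres
  obtain ⟨W, h1, h2, h3, h4⟩ := norm_holds (final_holds hup
    (bump_holds homKit homInt_holds hres loc_holds wickBase_holds sym_holds)
    (cutoff_holds homKit homInt_holds loc_holds wickBase_holds) bg_holds (add_holds loc_holds)
    grid_holds aff_holds sphereOf_holds (negBump_of match_holds))
  exact ⟨W, h1, h2, h3, (eig_ctl le_rfl h1 h2).summ, h4⟩

end Pool.Agent.Results.MP_465ce1_mp.Counterexample
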