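import Pool.Agent.Lib.MP_465ce1_mp.Main

/-!
The normalized heat trace decreases as soon as `t * lambda_0(W) >= 3 + sqrt 3`, a threshold
that does not depend on the dimension.
-/

open Pool.Agent.Lib.MP_465ce1_mp

namespace Pool.Agent.Results.MP_465ce1_mp.LargeTime

theorem result (n : ℕ) (hn : 4 ≤ n) (W : Sph n → ℝ) (hW : IsSmooth W) (hpos : ∀ x, 0 < W x) :
    0 < eig W 0 ∧ (∀ t : ℝ, 0 < t → Summable fun k => Real.exp (-(t * eig W k))) ∧
      AntitoneOn (heat W) {t : ℝ | 3 + √3 ≤ t * eig W 0} := by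
  have C := eig_ctl hn hW hpos
  refine ⟨C.c_pos, C.summ, fun t1 h1 t2 _ h12 => ?_⟩
  have hn' : (4 : ℝ) ≤ n := by exact_mod_cast hn
  have h1' : 3 + √3 ≤ t1 * eig W 0 := h1
  have ht1 : 0 < t1 := (mul_pos_iff_of_pos_right C.c_pos).mp (lt_of_lt_of_le (by positivity) h1')
  have := heat_le hn hW hpos (θ := 1) ht1 (ht1.trans_le h12) fun x hx => by
    rw [one_mul]
    exact (om_holds (n / 2) (by linarith)).1 _ _
      (h1'.trans (mul_le_mul_of_nonneg_left hx ht1.le))
      (mul_le_mul_of_nonneg_right h12 (C.c_pos.le.trans hx))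
  rwa [one_mul] at this

end Pool.Agent.Results.MP_465ce1_mp.LargeTime
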